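import Pool.Agent.L0h34.CW.Basics

set_option autoImplicit false

/-!
# Project CW, module CONTRA
-/

namespace Pool.Agent.L0h9.CW

open Pool.Agent.L0h34.CW

section
variable {A G : Type} [Group G]

/-- A large subset of `Gp f Δ` which lies in all conjugates with finite orbits. -/
theorem exists_core {ι : Type} [Finite ι] (N : ι → Subgroup G) (f : A → G)
    (Δ : Finset (List A)) (hinf : (Gp f Δ : Set G).Infinite) :
    ∃ N0 : Set G, N0.Infinite ∧ (∀ n ∈ N0, n ∈ Gp f Δ) ∧
      ∀ n ∈ N0, ∀ x y, Star Δ (x ++ y) → ∀ i, FinOrb (N i) (Gp f Δ) (ev f x)⁻¹ →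
        (ev f x)⁻¹ * n * ev f x ∈ N i := by
  classical
  obtain ⟨P, hP⟩ := exists_prefixes Δ
  obtain ⟨Yf, hYf⟩ : ∃ Yf : ι × P → Subgroup (Gp f Δ), ∀ i, Yf i =
      if FinOrb (N i.1) (Gp f Δ) (ev f i.2.1)⁻¹ then
        ((N i.1).map (MulAut.conj ((ev f i.2.1)⁻¹)⁻¹).toMonoidHom).subgroupOf (Gp f Δ) else ⊤ :=
    ⟨_, fun _ => rfl⟩
  have hY : ∀ i, (Yf i).index ≠ 0 := by
    intro i
    rw [hYf]
    by_cases h : FinOrb (N i.1) (Gp f Δ) (ev f i.2.1)⁻¹
    · rw [if_pos h]
      exact finOrb_iff.1 h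
    · rw [if_neg h, Subgroup.index_top]
      exact one_ne_zero
  have hK : (⨅ i, Yf i).index ≠ 0 := Subgroup.index_iInf_ne_zero hY
  haveI : (⨅ i, Yf i).FiniteIndex := ⟨hK⟩
  refine ⟨((⨅ i, Yf i).normalCore.map (Gp f Δ).subtype : Subgroup G), ?_, ?_, ?_⟩
  · intro hfin
    have h1 : Finite ((⨅ i, Yf i).normalCore : Subgroup (Gp f Δ)) := by
      have h2 : Finite (((⨅ i, Yf i).normalCore.map (Gp f Δ).subtype : Subgroup G)) := hfin
      exact Finite.of_injective (fun x => (⟨(x.1 : G), x.1, x.2, rfl⟩ :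
        ((⨅ i, Yf i).normalCore.map (Gp f Δ).subtype : Subgroup G)))
        (fun x y hxy => Subtype.ext (Subtype.ext (by simpa using hxy)))
    have h3 : Finite (Gp f Δ) :=
      Finite.of_subgroup_quotient ((⨅ i, Yf i).normalCore)
    exact hinf h3
  · rintro n ⟨m, -, rfl⟩
    exact m.2
  · rintro n ⟨m, hm, rfl⟩ x y hxy i hfin
    obtain ⟨p, hp, -, x₁, hx₁, rfl⟩ := hP x y hxy
    have hmem : ev f x₁ ∈ Gp f Δ := hx₁.mem_Gp
    have h1 : FinOrb (N i) (Gp f Δ) (ev f p)⁻¹ := by
      rw [ev_append, mul_inv_rev] at hfin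
      exact (finOrb_mul ((Gp f Δ).inv_mem hmem)).1 hfin
    have h2 : (⟨ev f x₁, hmem⟩ : Gp f Δ)⁻¹ * m * (⟨ev f x₁, hmem⟩ : Gp f Δ) ∈
        (⨅ i, Yf i).normalCore := by
      have h3 := (Subgroup.normalCore_normal (⨅ i, Yf i)).conj_mem m hm
        (⟨ev f x₁, hmem⟩ : Gp f Δ)⁻¹
      rwa [inv_inv] at h3
    have h4 := (Subgroup.mem_iInf.1 (Subgroup.normalCore_le _ h2)) (i, ⟨p, hp⟩)
    rw [hYf] at h4
    rw [if_pos h1, Subgroup.mem_subgroupOf] at h4
    obtain ⟨k, hk, hk'⟩ := Subgroup.mem_map.1 h4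
    have h5 : k = (ev f (x₁ ++ p))⁻¹ * (m : G) * ev f (x₁ ++ p) := by
      have h6 : ev f p * k * (ev f p)⁻¹ = (ev f x₁)⁻¹ * (m : G) * ev f x₁ := by
        simpa [MulAut.conj_apply] using hk'
      have h7 : k = (ev f p)⁻¹ * (ev f p * k * (ev f p)⁻¹) * ev f p := by group
      rw [h7, h6, ev_append]
      group
    have h8 := hk
    rw [h5] at h8
    exact h8

end

theorem contra (hREL : S_REL) : S_CONTRA := by
  intro A G _ _ hT g f S hS Δ hΔ hinf ⟨K, hK⟩
  haveI := g.fin
  obtain ⟨N0, hN0, hN1, hN2⟩ := exists_core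
    (fun i : g.N × Bool => if i.2 then N1 (HB g f i.1) else N2 (HB g f i.1)) f Δ hinf
  obtain ⟨hR, -⟩ := hREL A G hT g f
  -- a long word with value in `N0`
  have hshort : ({w : List A | w.length ≤ K} : Set (List A)).Finite := List.finite_length_le A K
  obtain ⟨n, hn, hn'⟩ := (hN0.diff ((hshort.image (ev f)).union (Set.finite_singleton (1 : G)))).nonempty
  obtain ⟨w, hw, rfl⟩ := exists_word hT (hN1 n hn)
  have hw1 : ev f w ≠ 1 := fun h => hn' (Or.inr h)
  have hwK : K < w.length := by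
    by_contra h
    exact hn' (Or.inl ⟨w, not_lt.1 h, rfl⟩)
  have key : ∀ x y, Star Δ (x ++ y) → ∀ B : g.N,
      (FinOrb (N1 (HB g f B)) (Gp f Δ) (ev f x)⁻¹ →
        (ev f x)⁻¹ * ev f w * ev f x ∈ N1 (HB g f B)) ∧
      (FinOrb (N2 (HB g f B)) (Gp f Δ) (ev f x)⁻¹ →
        (ev f x)⁻¹ * ev f w * ev f x ∈ N2 (HB g f B)) := by
    intro x y hxy B
    have h1 := hN2 _ hn x y hxy (B, true)
    have h2 := hN2 _ hn x y hxy (B, false)
    simp only [if_true, Bool.false_eq_true, if_false] at h1 h2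
    exact ⟨h1, h2⟩
  have thin : ∀ (B : g.N) (x b y : List A), Lk g S B x y → Dv g B b → w = x ++ b ++ y →
      Thin g f (Gp f Δ) B (ev f x) (ev f x * ev f b) := by
    intro B x b y hl hb hwe
    constructor
    · intro hfin
      have h1 := (key x (b ++ y) (by rw [← List.append_assoc, ← hwe]; exact hw) B).1 hfin
      have h2 := (N1 (HB g f B)).inv_mem h1
      obtain ⟨u, v, huv, he⟩ := (hR B _).1 (mem_N1.1 h2)
      have he1 : ((ev f x)⁻¹ * ev f w * ev f x)⁻¹ = ev f u := congrArg Prod.fst he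
      have he2 : (1 : Gᵐᵒᵖ) = MulOpposite.op (ev f v) := congrArg Prod.snd he
      have he3 : ev f v = 1 := (MulOpposite.op_injective he2).symm
      have h3 := (hS _).1 ((hl.trans huv).dv hb)
      apply h3
      rw [ev_append, ev_append, ev_append, ev_append, ← he1, he3, one_mul]
      have h4 : ev f w = ev f x * ev f b * ev f y := by rw [hwe, ev_append, ev_append]
      rw [h4]
      group
    · intro hfin
      have h0 : ev f x * ev f b = ev f (x ++ b) := (ev_append x b).symm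
      rw [h0] at hfin
      have h1 := (key (x ++ b) y (by rw [← hwe]; exact hw) B).2 hfin
      have h2 := (N2 (HB g f B)).inv_mem h1
      obtain ⟨u, v, huv, he⟩ := (hR B _).1 (mem_N2.1 h2)
      have he1 : (1 : G) = ev f u := congrArg Prod.fst he
      have he2 : MulOpposite.op (((ev f (x ++ b))⁻¹ * ev f w * ev f (x ++ b))⁻¹) =
        MulOpposite.op (ev f v) := congrArg Prod.snd he
      have he3 : ((ev f (x ++ b))⁻¹ * ev f w * ev f (x ++ b))⁻¹ = ev f v :=
        MulOpposite.op_injective he2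
      have h3 := (hS _).1 ((hl.trans huv).dv hb)
      apply h3
      rw [ev_append, ev_append, ev_append, ev_append, ← he1, ← he3, mul_one, ev_append]
      have h4 : ev f w = ev f x * ev f b * ev f y := by rw [hwe, ev_append, ev_append]
      rw [h4]
      group
  have td : ∀ (B : g.N) (b : List A), Dv g B b → ∀ x y, Lk g S B x y → w = x ++ b ++ y →
      TD g f (Gp f Δ) B (ev f x) b := by
    intro B b hb
    induction hb with
    | term h =>
      intro x y hl hwe
      exact TD.term h (thin _ x _ y hl (Dv.term h) hwe)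
    | @pair B C D u v hp hu hv ih1 ih2 =>
      intro x y hl hwe
      have hC : Lk g S C x (v ++ y) := by
        have h1 := hl.trans (Lk.left hp (Lk.refl C) hv)
        simpa using h1
      have hD : Lk g S D (x ++ u) y := by
        have h1 := hl.trans (Lk.right hp hu (Lk.refl D))
        simpa using h1
      have h1 := ih1 x (v ++ y) hC (by rw [hwe]; simp)
      have h2 := ih2 (x ++ u) y hD (by rw [hwe]; simp)
      rw [ev_append] at h2
      refine TD.pair hp h1 h2 ?_
      exact thin _ x _ y hl (Dv.pair hp hu hv) hwe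
  have h1 := td S w ((hS w).2 hw1) [] [] (Lk.refl S) (by simp)
  have h2 := hK [] w [] (by simpa using hw) h1
  omega

end Pool.Agent.L0h9.CW
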