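import Pool.Agent.L0h34.CW.Basics

set_option autoImplicit false

/-!
# Project CW, module EXC
-/

namespace Pool.Agent.L0h9.CW

open Pool.Agent.L0h34.CW

section
variable {A G : Type} [Group G]

theorem rc_mul {U : Subgroup G} {x y : G} (h : rc U x = rc U y) (k : G) :
    rc U (x * k) = rc U (y * k) := by
  rw [rc_eq] at h ⊢
  have e : x * k * (y * k)⁻¹ = x * y⁻¹ := by group
  rwa [e]

/-- One word whose prefixes move all cosets of infinite orbit out of `D`. -/
theorem exists_mover (hT : Tors G) (f : A → G) (U : Subgroup G) (D : Set (Set G)) (hD : D.Finite)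
    (Δ : Finset (List A)) (T : Finset G) (hT' : ∀ z0 ∈ T, ¬ FinOrb U (Gp f Δ) z0) :
    ∃ z, Star Δ z ∧ ∀ z0 ∈ T, ∃ z' z'', z = z' ++ z'' ∧ rc U (z0 * ev f z') ∉ D := by
  classical
  induction T using Finset.induction_on with
  | empty => exact ⟨[], Star.nil, by simp⟩
  | insert a T _ ih =>
    obtain ⟨z, hz, hz'⟩ := ih fun z0 h0 => hT' z0 (Finset.mem_insert_of_mem h0)
    have h1 : ¬ FinOrb U (Gp f Δ) (a * ev f z) := fun h =>
      hT' a (Finset.mem_insert_self _ _) ((finOrb_mul hz.mem_Gp).1 h)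
    have h2 : ∃ h ∈ Gp f Δ, rc U (a * ev f z * h) ∉ D := by
      by_contra hc
      push Not at hc
      refine h1 (hD.subset ?_)
      rintro c ⟨h, hh, rfl⟩
      exact hc h hh
    obtain ⟨h, hh, hhD⟩ := h2
    obtain ⟨y, hy, rfl⟩ := exists_word hT hh
    refine ⟨z ++ y, hz.append hy, fun z0 h0 => ?_⟩
    rcases Finset.mem_insert.1 h0 with rfl | h0
    · refine ⟨z ++ y, [], by simp, ?_⟩
      rw [ev_append, ← mul_assoc]
      exact hhD
    · obtain ⟨z', z'', he, hn⟩ := hz' z0 h0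
      exact ⟨z', z'' ++ y, by rw [he, List.append_assoc], hn⟩

end

theorem exc : S_EXC := by
  classical
  intro A G _ hT f U D hD Δ hΔ
  -- representatives
  have hfin : {c : Set G | c ∈ D ∧ ∃ z0, c = rc U z0 ∧ ¬ FinOrb U (Gp f Δ) z0}.Finite :=
    hD.subset fun c hc => hc.1
  have hrep : ∃ rep : Set G → G, ∀ c, (∃ z0, c = rc U z0 ∧ ¬ FinOrb U (Gp f Δ) z0) →
      c = rc U (rep c) ∧ ¬ FinOrb U (Gp f Δ) (rep c) := by
    refine ⟨fun c => if h : ∃ z0, c = rc U z0 ∧ ¬ FinOrb U (Gp f Δ) z0 then h.choose else 1, ?_⟩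
    intro c hc
    simp only [dif_pos hc]
    exact hc.choose_spec
  obtain ⟨rep, hrep⟩ := hrep
  obtain ⟨z, hz, hz'⟩ := exists_mover hT f U D hD Δ (hfin.toFinset.image rep) (by
    intro z0 h0
    obtain ⟨c, hc, rfl⟩ := Finset.mem_image.1 h0
    exact (hrep c (hfin.mem_toFinset.1 hc).2).2)
  obtain ⟨m, hm, hzm⟩ := hT (ev f z)
  have hv : ∀ d, ev f ((List.replicate m z).flatten ++ d) = ev f d := fun d => by
    rw [ev_append, ev_replicate_flatten, hzm, one_mul]
  have hFine : Fine (Δ.image fun d => (List.replicate m z).flatten ++ d) Δ := by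
    constructor
    · intro e he h0
      obtain ⟨d, hd, rfl⟩ := Finset.mem_image.1 he
      exact hΔ d hd (List.append_eq_nil_iff.1 h0).2
    · intro e he
      obtain ⟨d, hd, rfl⟩ := Finset.mem_image.1 he
      exact (hz.replicate m).append (Star.of_mem hd)
  have hGp : Gp f (Δ.image fun d => (List.replicate m z).flatten ++ d) = Gp f Δ := by
    apply le_antisymm (Gp_mono hFine)
    refine (Subgroup.closure_le _).2 ?_
    rintro x ⟨d, hd, rfl⟩
    exact Subgroup.subset_closure ⟨_, Finset.mem_image_of_mem _ hd, (hv d).symm⟩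
  refine ⟨_, hFine, hGp, ?_⟩
  obtain ⟨L, hL, -, hlet⟩ := exists_letter (Δ.image fun d => (List.replicate m z).flatten ++ d)
  refine ⟨2 * L, ?_⟩
  intro x b y hxby hx hb
  by_contra hlen
  obtain ⟨s, d, t, hbe, hd, hxs, -, -⟩ := hlet x b y hxby (by omega)
  obtain ⟨δ, -, rfl⟩ := Finset.mem_image.1 hd
  have h1 : ev f (x ++ s) ∈ Gp f Δ := by
    rw [← hGp]
    exact hxs.mem_Gp
  have h2 : ¬ FinOrb U (Gp f Δ) (ev f s) := by
    intro h3
    apply hx
    have e : ev f s = (ev f x)⁻¹ * ev f (x ++ s) := by rw [ev_append]; group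
    rw [e] at h3
    exact (finOrb_mul h1).1 h3
  have h3 : rc U (ev f s) ∈ D := by
    have h4 := hb s.length (by rw [hbe]; simp)
    rw [hbe, List.append_assoc, List.take_left'] at h4
    · exact h4
    · rfl
  have h4 := hrep (rc U (ev f s)) ⟨ev f s, rfl, h2⟩
  obtain ⟨z', z'', he, hn⟩ := hz' (rep (rc U (ev f s))) (Finset.mem_image_of_mem _
    (hfin.mem_toFinset.2 ⟨h3, ev f s, rfl, h2⟩))
  obtain ⟨m', rfl⟩ : ∃ m', m = m' + 1 := ⟨m - 1, by omega⟩
  have h5 : b = (s ++ z') ++ (z'' ++ (List.replicate m' z).flatten ++ δ ++ t) := by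
    rw [hbe, List.replicate_succ, List.flatten_cons]
    nth_rewrite 1 [he]
    simp only [List.append_assoc]
  have h6 : rc U (ev f (s ++ z')) ∈ D := by
    have h7 := hb (s ++ z').length (by
      rw [h5, List.length_append (as := s ++ z')]
      exact Nat.le_add_right _ _)
    rw [h5, List.take_left'] at h7
    · exact h7
    · rfl
  apply hn
  rw [← rc_mul h4.1, ← ev_append]
  exact h6

end Pool.Agent.L0h9.CW
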